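import Pool.Agent.Y403.MA.Main

/-!
# Every analytic quasi-order is induced by a continuous action of a Polish monoid by isometries

There is one Polish monoid `M`, which is cancellative, such that every analytic quasi-order on a
nonempty standard Borel space is classwise Borel isomorphic to the quasi-order induced by a
continuous action of `M` on Baire space all of whose elements act as isometries of Baire space onto
itself.

Idea. `M` is the free monoid over Baire space. A sequence of natural numbers is decoded with the
help of markers (a marker is a letter which carries a finite list that replaces everything before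
it). Pull the quasi-order back to Baire space with the decoding map `g`, and let `θ` be a
continuous map of Baire space onto the pulled back relation. The generator `p` with
`θ p = (z, z')` acts by an isometry which maps `z` to `z'` and does not change the value
`g w` for `w ≠ z`: if `w` first differs from `z` at `n`, it replaces the first `n` letters by those
of `z'` and changes the next letter such that the decoded list remains the same. As every list is
decoded from infinitely many letters, this can be done by a permutation of the letters.
-/

set_option autoImplicit false

open MeasureTheory Set Topology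

namespace Pool.Agent.Results.MP_c1fe20_lc.IsometricAction

universe u

/-- There is a cancellative Polish monoid `M` such that for every analytic quasi-order `R` on a
nonempty standard Borel space `X` there is a continuous action of `M` on Baire space with the
following properties.
* Every element of `M` acts as an isometry of Baire space onto itself (for the standard metric, so
  the action preserves the agreement of initial segments in both directions).
* There are Borel maps `f : X → ℕ → ℕ` and `g : (ℕ → ℕ) → X` with `g ∘ f = id` such that `z'` is in
  the orbit `M z` if and only if `R (g z) (g z')`, for all `z`, `z'` in Baire space. -/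
theorem result : ∃ (M : Type) (_ : Monoid M) (_ : TopologicalSpace M),
    PolishSpace M ∧ ContinuousMul M ∧
    (∀ a b c : M, (a * b = a * c → b = c) ∧ (b * a = c * a → b = c)) ∧
    ∀ (X : Type u) [Nonempty X] [TopologicalSpace X] [PolishSpace X] [MeasurableSpace X]
      [BorelSpace X] (R : X → X → Prop), AnalyticSet {q : X × X | R q.1 q.2} → (∀ x, R x x) →
      (∀ x y z, R x y → R y z → R x z) →
      ∃ (_ : MulAction M (ℕ → ℕ)), ContinuousSMul M (ℕ → ℕ) ∧
        (∀ m : M, Function.Surjective fun z : ℕ → ℕ => m • z) ∧
        (∀ (m : M) (z w : ℕ → ℕ) (n : ℕ),
          (∀ j < n, (m • z) j = (m • w) j) ↔ ∀ j < n, z j = w j) ∧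
        ∃ (f : X → ℕ → ℕ) (g : (ℕ → ℕ) → X), Measurable f ∧ Measurable g ∧
          (∀ x, g (f x) = x) ∧
          ∀ z z' : ℕ → ℕ, (∃ m : M, m • z = z') ↔ R (g z) (g z') := by
  refine ⟨Pool.Agent.Results.MP_c1fe20_lc.ContinuousMonoidAction.M, inferInstance, inferInstance,
    inferInstance, inferInstance, fun a b c => ⟨Pool.Agent.Y403.MA.left_cancel a b c,
      Pool.Agent.Y403.MA.right_cancel a b c⟩, ?_⟩
  intro X _ _ _ _ _ R hR hrefl htrans
  obtain ⟨T, h1, h2, h3, h4⟩ := Pool.Agent.Y403.MA.main_nonempty X {q : X × X | R q.1 q.2} hR
    hrefl htrans
  exact ⟨Pool.Agent.Results.MP_c1fe20_lc.ContinuousMonoidAction.act T,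
    Pool.Agent.Results.MP_c1fe20_lc.ContinuousMonoidAction.continuousSMul_act T h1,
    Pool.Agent.Y403.MA.surj_act h2, fun m z w n => Pool.Agent.Y403.MA.isom_act h3 m z w n, h4⟩

end Pool.Agent.Results.MP_c1fe20_lc.IsometricAction
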